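import Pool.Agent.Y242.LW.Stm

/-!
# Sides of a curve in the upper half-plane: basic properties (`S_IDXa`)
-/

open Set Filter Topology Complex Metric

noncomputable section

namespace Pool.Agent.Y891.LW

open LW242

/-- an abstract curve in the half-plane, from `ζ` to `∞` -/
structure Crv (G : ℝ → ℂ) (ζ b : ℝ) : Prop where
  cont : ContinuousOn G (Ioo 0 1)
  zero : Tendsto G (𝓝[>] 0) (𝓝 (ζ : ℂ))
  one : Tendsto (fun s : ℝ => G s / (((s / (1 - s) : ℝ) : ℂ) * I)) (𝓝[<] 1) (𝓝 (b : ℂ))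
  one_le : 1 ≤ b
  im_ge : ∀ s ∈ Ioo (0 : ℝ) 1, s / (1 - s) ≤ (G s).im

/-- lifts of the curve through `exp` with prescribed value at `0` -/
def Lft (G : ℝ → ℂ) (q v : ℂ) : Prop :=
  ∃ l : ℝ → ℂ, ContinuousOn l (Icc 0 1) ∧ l 1 = 0 ∧ l 0 = v ∧
    ∀ s ∈ Ioo (0 : ℝ) 1, exp (l s) = Mq q (G s)

theorem tendsto_ratio : Tendsto (fun s : ℝ => s / (1 - s)) (𝓝[<] 1) atTop := by
  have h1 : Tendsto (fun s : ℝ => 1 - s) (𝓝[<] 1) (𝓝[>] 0) := by
    refine tendsto_nhdsWithin_iff.2 ⟨?_, ?_⟩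
    · have : Tendsto (fun s : ℝ => 1 - s) (𝓝 1) (𝓝 (1 - 1)) := by
        exact (continuous_const.sub continuous_id).tendsto 1
      rw [sub_self] at this
      exact this.mono_left nhdsWithin_le_nhds
    · filter_upwards [self_mem_nhdsWithin] with s hs
      simpa using hs
  have h2 : Tendsto (fun s : ℝ => (1 - s)⁻¹ + (-1)) (𝓝[<] 1) atTop :=
    tendsto_atTop_add_const_right _ _ (tendsto_inv_nhdsGT_zero.comp h1)
  refine h2.congr' ?_
  filter_upwards [self_mem_nhdsWithin] with s hs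
  have : (1 - s) ≠ 0 := by
    have : s < 1 := hs
    linarith
  field_simp
  ring

theorem Crv.im_pos {G : ℝ → ℂ} {ζ b : ℝ} (h : Crv G ζ b) {s : ℝ} (hs : s ∈ Ioo (0 : ℝ) 1) :
    0 < (G s).im :=
  lt_of_lt_of_le (div_pos hs.1 (by linarith [hs.2])) (h.im_ge s hs)

/-- the ends of a function on `(0,1)` give a lift -/
theorem lft_of {G : ℝ → ℂ} {q v : ℂ} (f : ℝ → ℂ) (hf : ContinuousOn f (Ioo 0 1))
    (h0 : Tendsto f (𝓝[>] 0) (𝓝 v)) (h1 : Tendsto f (𝓝[<] 1) (𝓝 0))
    (he : ∀ s ∈ Ioo (0 : ℝ) 1, exp (f s) = Mq q (G s)) : Lft G q v := by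
  refine ⟨extendFrom (Ioo 0 1) f, ?_, ?_, ?_, ?_⟩
  · exact continuousOn_Icc_extendFrom_Ioo hf h0 h1
  · exact eq_lim_at_right_extendFrom_Ioo zero_lt_one h1
  · exact eq_lim_at_left_extendFrom_Ioo zero_lt_one h0
  · intro s hs
    have : extendFrom (Ioo 0 1) f s = f s := by
      refine extendFrom_eq (subset_closure hs) ?_
      exact hf s hs
    rw [this]
    exact he s hs

theorem lft_ends {G : ℝ → ℂ} {q v : ℂ} (h : Lft G q v) :
    ∃ f : ℝ → ℂ, ContinuousOn f (Ioo 0 1) ∧ Tendsto f (𝓝[>] 0) (𝓝 v) ∧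
      Tendsto f (𝓝[<] 1) (𝓝 0) ∧ ∀ s ∈ Ioo (0 : ℝ) 1, exp (f s) = Mq q (G s) := by
  obtain ⟨l, hl, h1, h0, he⟩ := h
  refine ⟨l, hl.mono Ioo_subset_Icc_self, ?_, ?_, he⟩
  · have := (hl 0 ⟨le_rfl, zero_le_one⟩)
    rw [← h0]
    refine this.mono_left ?_
    refine nhdsWithin_le_of_mem ?_
    exact mem_of_superset (Ioo_mem_nhdsGT zero_lt_one) Ioo_subset_Icc_self
  · have := (hl 1 ⟨zero_le_one, le_rfl⟩)
    rw [← h1]
    refine this.mono_left ?_
    refine nhdsWithin_le_of_mem ?_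
    exact mem_of_superset (Ioo_mem_nhdsLT zero_lt_one) Ioo_subset_Icc_self

/-- two lifts cannot differ by `2πi` at `0` -/
theorem lft_excl {G : ℝ → ℂ} {q : ℂ} {a : ℝ} (h : Lft G q ((a : ℂ) * I))
    (h' : Lft G q (((a - 2 * Real.pi : ℝ) : ℂ) * I)) : False := by
  obtain ⟨l, hl, h1, h0, he⟩ := h
  obtain ⟨l', hl', h1', h0', he'⟩ := h'
  set m : ℝ → ℝ := fun s => (l s - l' s).im with hm
  have hmc : ContinuousOn m (Icc 0 1) := by
    exact continuous_im.comp_continuousOn (hl.sub hl')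
  have hm1 : m 1 = 0 := by simp [hm, h1, h1']
  have hm0 : m 0 = 2 * Real.pi := by
    simp only [hm, h0, h0', sub_im, mul_I_im, ofReal_re]
    ring
  have hpi := Real.pi_pos
  have : Real.pi ∈ m '' (Icc 0 1) := by
    refine intermediate_value_Icc' zero_le_one hmc ?_
    rw [hm1, hm0]
    constructor <;> linarith
  obtain ⟨s, hs, hsm⟩ := this
  have hs0 : s ≠ 0 := by
    rintro rfl
    rw [hm0] at hsm
    linarith
  have hs1 : s ≠ 1 := by
    rintro rfl
    rw [hm1] at hsm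
    linarith
  have hsI : s ∈ Ioo (0 : ℝ) 1 :=
    ⟨lt_of_le_of_ne hs.1 (Ne.symm hs0), lt_of_le_of_ne hs.2 hs1⟩
  have hee : exp (l s - l' s) = 1 := by
    rw [exp_sub, he s hsI, he' s hsI]
    refine div_self ?_
    rw [← he s hsI]
    exact exp_ne_zero _
  rw [exp_eq_one_iff] at hee
  obtain ⟨n, hn⟩ := hee
  have hn' : m s = n * (2 * Real.pi) := by
    simp only [hm, hn]
    simp
  rw [hsm] at hn'
  have h2 : (1 : ℝ) = 2 * n := by
    have : Real.pi * (2 * n - 1) = 0 := by linarith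
    rcases mul_eq_zero.1 this with h | h
    · exact absurd h hpi.ne'
    · linarith
  have h3 : (1 : ℤ) = 2 * n := by exact_mod_cast h2
  omega

/-- a lift exists only off the curve -/
theorem lft_off {G : ℝ → ℂ} {q v : ℂ} (h : Lft G q v) {s : ℝ} (hs : s ∈ Ioo (0 : ℝ) 1) :
    G s ≠ q := by
  obtain ⟨l, hl, h1, h0, he⟩ := h
  intro hq
  have := he s hs
  rw [hq, Mq, sub_self, zero_div] at this
  exact exp_ne_zero _ this

/-- points off the curve are at a positive distance of it -/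
theorem Crv.dist_lb {G : ℝ → ℂ} {ζ b : ℝ} (h : Crv G ζ b) {p : ℂ} (hp : p ≠ ζ)
    (hG : ∀ s ∈ Ioo (0 : ℝ) 1, G s ≠ p) : ∃ d > 0, ∀ s ∈ Ioo (0 : ℝ) 1, d ≤ ‖G s - p‖ := by
  -- near zero
  have hd0 : 0 < ‖p - ζ‖ := norm_pos_iff.2 (sub_ne_zero.2 hp)
  have e0 : ∀ᶠ s in 𝓝[>] (0 : ℝ), ‖G s - ζ‖ < ‖p - ζ‖ / 2 := by
    have := h.zero
    rw [Metric.tendsto_nhds] at this
    have := this (‖p - ζ‖ / 2) (by positivity)
    simpa only [dist_eq_norm] using this
  obtain ⟨δ, hδ, hδ'⟩ := (mem_nhdsGT_iff_exists_Ioo_subset).1 e0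
  have hδ0 : (0 : ℝ) < δ := hδ
  -- near one
  have e1 : ∀ᶠ s in 𝓝[<] (1 : ℝ), p.im + 1 ≤ s / (1 - s) :=
    tendsto_ratio.eventually_ge_atTop _
  obtain ⟨η, hη, hη'⟩ := (mem_nhdsLT_iff_exists_Ioo_subset).1 e1
  have hη1 : η < 1 := hη
  -- middle
  set a := min (δ / 2) (1 / 2) with ha
  set c := max ((1 + η) / 2) (1 / 2) with hc
  have ha0 : 0 < a := by
    rw [ha]; exact lt_min (by linarith) (by norm_num)
  have hc1 : c < 1 := by
    rw [hc]; exact max_lt (by linarith) (by norm_num)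
  have hac : a ≤ c := (min_le_right _ _).trans (le_max_right _ _)
  have hsub : Icc a c ⊆ Ioo (0 : ℝ) 1 := fun s hs => ⟨lt_of_lt_of_le ha0 hs.1, lt_of_le_of_lt hs.2 hc1⟩
  have hcont : ContinuousOn (fun s => ‖G s - p‖) (Icc a c) :=
    ((h.cont.mono hsub).sub continuousOn_const).norm
  obtain ⟨s0, hs0, hmin⟩ := isCompact_Icc.exists_isMinOn (nonempty_Icc.2 hac) hcont
  have hm0 : 0 < ‖G s0 - p‖ := norm_pos_iff.2 (sub_ne_zero.2 (hG s0 (hsub hs0)))
  refine ⟨min (‖p - ζ‖ / 2) (min 1 ‖G s0 - p‖), lt_min (by positivity) (lt_min one_pos hm0), ?_⟩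
  intro s hs
  by_cases h1 : s < a
  · have : s ∈ Ioo (0 : ℝ) δ := ⟨hs.1, by
      have := min_le_left (δ / 2) (1 / 2 : ℝ)
      linarith⟩
    have h2 : ‖G s - ζ‖ < ‖p - ζ‖ / 2 := hδ' this
    refine (min_le_left _ _).trans ?_
    have h3 : ‖p - ζ‖ ≤ ‖G s - p‖ + ‖G s - ζ‖ := by
      have : p - ζ = -(G s - p) + (G s - ζ) := by ring
      calc ‖p - ζ‖ = ‖-(G s - p) + (G s - ζ)‖ := by rw [← this]
        _ ≤ ‖-(G s - p)‖ + ‖G s - ζ‖ := norm_add_le _ _
        _ = _ := by rw [norm_neg]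
    linarith
  · by_cases h2 : c < s
    · have : s ∈ Ioo η 1 := ⟨by
        have := le_max_left ((1 + η) / 2) (1 / 2 : ℝ)
        linarith, hs.2⟩
      have h3 : p.im + 1 ≤ s / (1 - s) := hη' this
      have h4 := h.im_ge s hs
      refine (min_le_right _ _).trans ((min_le_left _ _).trans ?_)
      have h5 : |(G s - p).im| ≤ ‖G s - p‖ := abs_im_le_norm _
      have h6 : (G s - p).im ≤ |(G s - p).im| := le_abs_self _
      rw [sub_im] at h6 h5
      linarith
    · have : s ∈ Icc a c := ⟨not_lt.1 h1, not_lt.1 h2⟩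
      exact (min_le_right _ _).trans ((min_le_right _ _).trans (hmin this))

/-- the initial parts of the curve are bounded -/
theorem Crv.bdd {G : ℝ → ℂ} {ζ b : ℝ} (h : Crv G ζ b) {s₁ : ℝ} (hs₁ : s₁ < 1) :
    ∃ R : ℝ, ∀ s ∈ Ioo (0 : ℝ) 1, s ≤ s₁ → ‖G s‖ ≤ R := by
  have e0 : ∀ᶠ s in 𝓝[>] (0 : ℝ), ‖G s‖ ≤ |ζ| + 1 := by
    have := h.zero
    rw [Metric.tendsto_nhds] at this
    have := this 1 one_pos
    filter_upwards [this] with s hs
    rw [dist_eq_norm] at hs
    have h1 : ‖G s‖ ≤ ‖G s - ζ‖ + ‖(ζ : ℂ)‖ := by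
      have : G s = (G s - ζ) + ζ := by ring
      calc ‖G s‖ = ‖(G s - ζ) + ζ‖ := by rw [← this]
        _ ≤ _ := norm_add_le _ _
    have h2 : ‖(ζ : ℂ)‖ = |ζ| := by simp
    linarith
  obtain ⟨δ, hδ, hδ'⟩ := (mem_nhdsGT_iff_exists_Ioo_subset).1 e0
  have hδ0 : (0 : ℝ) < δ := hδ
  have hsub : Icc (δ / 2) s₁ ⊆ Ioo (0 : ℝ) 1 := fun s hs =>
    ⟨by linarith [hs.1], lt_of_le_of_lt hs.2 hs₁⟩
  obtain ⟨R, hR⟩ := isCompact_Icc.exists_bound_of_continuousOn (h.cont.mono hsub)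
  refine ⟨max (|ζ| + 1) R, fun s hs hss => ?_⟩
  by_cases h1 : s < δ / 2
  · exact (hδ' (show s ∈ Ioo 0 δ from ⟨hs.1, by linarith⟩)).trans (le_max_left _ _)
  · exact (hR s ⟨not_lt.1 h1, hss⟩).trans (le_max_right _ _)

theorem Crv.norm_tendsto {G : ℝ → ℂ} {ζ b : ℝ} (h : Crv G ζ b) :
    Tendsto (fun s => ‖G s‖) (𝓝[<] 1) atTop := by
  refine tendsto_atTop_mono' _ ?_ tendsto_ratio
  filter_upwards [Ioo_mem_nhdsLT (zero_lt_one (α := ℝ))] with s hs
  exact (h.im_ge s hs).trans (im_le_norm _)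

/-- the ratio of translates tends to one -/
theorem Crv.ratio_tendsto {G : ℝ → ℂ} {ζ b : ℝ} (h : Crv G ζ b) (p p' : ℂ) :
    Tendsto (fun s => (G s - p') / (G s - p)) (𝓝[<] 1) (𝓝 1) := by
  have h1 : Tendsto (fun s => ‖G s - p‖) (𝓝[<] 1) atTop := by
    refine tendsto_atTop_mono (f := fun s => ‖G s‖ + (-‖p‖)) ?_
      (tendsto_atTop_add_const_right _ _ h.norm_tendsto)
    intro s
    have := norm_sub_norm_le (G s) p
    linarith
  have h2 : Tendsto (fun s => (p' - p) / (G s - p)) (𝓝[<] 1) (𝓝 0) := by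
    rw [tendsto_zero_iff_norm_tendsto_zero]
    simp only [norm_div]
    exact h1.const_div_atTop _
  have h3 : Tendsto (fun s => 1 - (p' - p) / (G s - p)) (𝓝[<] 1) (𝓝 1) := by
    have := h2.const_sub 1
    rwa [sub_zero] at this
  refine h3.congr' ?_
  filter_upwards [h1.eventually_gt_atTop 0] with s hs
  have : G s - p ≠ 0 := norm_pos_iff.1 hs
  field_simp
  ring

theorem slit_of_near {w w' : ℂ} (h : ‖w' - w‖ < ‖w‖) : w' / w ∈ slitPlane := by
  have hw : w ≠ 0 := by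
    intro h0
    rw [h0, norm_zero] at h
    exact absurd h (not_lt.2 (norm_nonneg _))
  have h1 : w' / w = 1 + (w' - w) / w := by
    field_simp
    ring
  rw [h1]
  refine mem_slitPlane_of_norm_lt_one ?_
  rw [norm_div, div_lt_one (norm_pos_iff.2 hw)]
  exact h

theorem arg_mem_Ioo {w : ℂ} (h : 0 < w.im) : w.arg ∈ Ioo 0 Real.pi := by
  refine ⟨?_, ?_⟩
  · have h1 : 0 ≤ w.arg := arg_nonneg_iff.2 h.le
    rcases h1.eq_or_lt with h2 | h2
    · exfalso
      have := (arg_eq_zero_iff.1 h2.symm).2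
      linarith
    · exact h2
  · refine lt_of_le_of_ne (arg_le_pi w) ?_
    intro h2
    have := (arg_eq_pi_iff.1 h2).2
    linarith

theorem arg_div_of_im_pos {w w' : ℂ} (h : 0 < w.im) (h' : 0 < w'.im) :
    (w' / w).arg = w'.arg - w.arg := by
  have hw : w ≠ 0 := by rintro rfl; simp at h
  have hw' : w' ≠ 0 := by rintro rfl; simp at h'
  have a1 := arg_mem_Ioo h
  have a2 := arg_mem_Ioo h'
  have hinv : (w⁻¹).arg = -w.arg := by
    rw [arg_inv, if_neg a1.2.ne]
  rw [div_eq_mul_inv, arg_mul hw' (inv_ne_zero hw), hinv]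
  · ring
  · rw [hinv]
    constructor
    · linarith [a1.1, a1.2, a2.1, a2.2]
    · linarith [a1.1, a1.2, a2.1, a2.2]

/-- local constancy: moving the point -/
theorem Crv.shift {G : ℝ → ℂ} {ζ b : ℝ} (h : Crv G ζ b) {q q' : ℂ} {κ : ℝ} (hq : 0 < q.im)
    (hq' : 0 < q'.im) (hG : ∀ s ∈ Ioo (0 : ℝ) 1, ‖q' - q‖ < ‖G s - q‖) (hqq : ‖q' - q‖ < q.im)
    (hl : Lft G q (((2 * (q - (ζ : ℂ)).arg + κ : ℝ) : ℂ) * I)) :
    Lft G q' (((2 * (q' - (ζ : ℂ)).arg + κ : ℝ) : ℂ) * I) := by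
  obtain ⟨f, hf, h0, h1, he⟩ := lft_ends hl
  set q₁ := (starRingEnd ℂ) q with hq₁
  set q₁' := (starRingEnd ℂ) q' with hq₁'
  have hnn : ‖q₁' - q₁‖ = ‖q' - q‖ := by
    rw [hq₁, hq₁', ← map_sub, RCLike.norm_conj]
  have hne : ∀ s ∈ Ioo (0 : ℝ) 1, G s - q ≠ 0 := fun s hs h0 => by
    have := hG s hs
    rw [h0, norm_zero] at this
    exact absurd this (not_lt.2 (norm_nonneg _))
  have hG1 : ∀ s ∈ Ioo (0 : ℝ) 1, ‖q₁' - q₁‖ < ‖G s - q₁‖ := fun s hs => by
    rw [hnn]
    have h2 : (G s - q₁).im ≤ ‖G s - q₁‖ := im_le_norm _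
    rw [sub_im, hq₁, conj_im] at h2
    have h3 := h.im_pos hs
    rw [← hq₁] at h2
    linarith
  have hne1 : ∀ s ∈ Ioo (0 : ℝ) 1, G s - q₁ ≠ 0 := fun s hs h0 => by
    have := hG1 s hs
    rw [h0, norm_zero] at this
    exact absurd this (not_lt.2 (norm_nonneg _))
  have hζ : ‖q' - q‖ < ‖(ζ : ℂ) - q‖ := by
    have h2 : |((ζ : ℂ) - q).im| ≤ ‖(ζ : ℂ) - q‖ := abs_im_le_norm _
    have h3 : ((ζ : ℂ) - q).im = -q.im := by simp
    rw [h3, abs_neg, abs_of_pos hq] at h2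
    linarith
  have hζ1 : ‖q₁' - q₁‖ < ‖(ζ : ℂ) - q₁‖ := by
    rw [hnn]
    have h2 : |((ζ : ℂ) - q₁).im| ≤ ‖(ζ : ℂ) - q₁‖ := abs_im_le_norm _
    have h3 : ((ζ : ℂ) - q₁).im = q.im := by simp [hq₁]
    rw [h3, abs_of_pos hq] at h2
    linarith
  have sl : ∀ {w p p' : ℂ}, ‖p' - p‖ < ‖w - p‖ → (w - p') / (w - p) ∈ slitPlane := by
    intro w p p' hh
    refine slit_of_near ?_
    have : w - p' - (w - p) = -(p' - p) := by ring
    rw [this, norm_neg]
    exact hh
  refine lft_of (fun s => f s + log ((G s - q') / (G s - q)) - log ((G s - q₁') / (G s - q₁)))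
    ?_ ?_ ?_ ?_
  · refine (hf.add ?_).sub ?_
    · exact ContinuousOn.clog ((h.cont.sub continuousOn_const).div
        (h.cont.sub continuousOn_const) hne) (fun s hs => sl (hG s hs))
    · exact ContinuousOn.clog ((h.cont.sub continuousOn_const).div
        (h.cont.sub continuousOn_const) hne1) (fun s hs => sl (hG1 s hs))
  · have hval : (((2 * (q' - (ζ : ℂ)).arg + κ : ℝ) : ℂ) * I) =
        (((2 * (q - (ζ : ℂ)).arg + κ : ℝ) : ℂ) * I) + log (((ζ : ℂ) - q') / ((ζ : ℂ) - q)) -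
          log (((ζ : ℂ) - q₁') / ((ζ : ℂ) - q₁)) := by
      set ρ := ((ζ : ℂ) - q') / ((ζ : ℂ) - q) with hρ
      have hc : ((ζ : ℂ) - q₁') / ((ζ : ℂ) - q₁) = (starRingEnd ℂ) ρ := by
        rw [hρ, map_div₀, map_sub, map_sub, conj_ofReal]
      have hsl : ρ ∈ slitPlane := sl hζ
      have harg : ρ.arg ≠ Real.pi := (mem_slitPlane_iff_arg.1 hsl).1
      rw [hc, log_conj ρ harg]
      have h2 : log ρ - (starRingEnd ℂ) (log ρ) = ((2 * ρ.arg : ℝ) : ℂ) * I := by
        apply Complex.ext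
        · simp
        · simp [log_im]
          ring
      have h3 : ρ.arg = (q' - (ζ : ℂ)).arg - (q - (ζ : ℂ)).arg := by
        have : ρ = (q' - (ζ : ℂ)) / (q - (ζ : ℂ)) := by
          rw [hρ, ← neg_sub q' (ζ : ℂ), ← neg_sub q (ζ : ℂ), neg_div_neg_eq]
        rw [this]
        exact arg_div_of_im_pos (by simpa using hq) (by simpa using hq')
      rw [add_sub_assoc, h2, h3]
      push_cast
      ring
    rw [hval]
    refine (h0.add ?_).sub ?_
    · refine Tendsto.clog ?_ (sl hζ)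
      refine (h.zero.sub tendsto_const_nhds).div (h.zero.sub tendsto_const_nhds) ?_
      intro h2
      rw [h2, norm_zero] at hζ
      exact absurd hζ (not_lt.2 (norm_nonneg _))
    · refine Tendsto.clog ?_ (sl hζ1)
      refine (h.zero.sub tendsto_const_nhds).div (h.zero.sub tendsto_const_nhds) ?_
      intro h2
      rw [h2, norm_zero] at hζ1
      exact absurd hζ1 (not_lt.2 (norm_nonneg _))
  · have h2 : Tendsto (fun s => log ((G s - q') / (G s - q))) (𝓝[<] 1) (𝓝 0) := by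
      have := (h.ratio_tendsto q q').clog (by simp)
      rwa [log_one] at this
    have h3 : Tendsto (fun s => log ((G s - q₁') / (G s - q₁))) (𝓝[<] 1) (𝓝 0) := by
      have := (h.ratio_tendsto q₁ q₁').clog (by simp)
      rwa [log_one] at this
    have := (h1.add h2).sub h3
    simpa using this
  · intro s hs
    have n1 := hne s hs
    have n2 := hne1 s hs
    have n3 : (G s - q') / (G s - q) ≠ 0 := slitPlane_ne_zero (sl (hG s hs))
    have n4 : (G s - q₁') / (G s - q₁) ≠ 0 := slitPlane_ne_zero (sl (hG1 s hs))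
    have n5 : G s - q' ≠ 0 := fun h0 => n3 (by rw [h0, zero_div])
    have n6 : G s - q₁' ≠ 0 := fun h0 => n4 (by rw [h0, zero_div])
    rw [exp_sub, exp_add, he s hs, exp_log n3, exp_log n4, Mq, Mq, ← hq₁, ← hq₁']
    field_simp

theorem ray_im (x s : ℝ) : (ray x s).im = s / (1 - s) := by
  rw [ray, add_im, ofReal_im, mul_I_im, ofReal_re, zero_add]

theorem ray_re (x s : ℝ) : (ray x s).re = x := by
  rw [ray, add_re, ofReal_re, mul_I_re, ofReal_im, neg_zero, add_zero]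

theorem log_I_mul {w : ℂ} (h : 0 < w.im) (h0 : w.re ≠ 0) :
    log (I * w) - log (I * (starRingEnd ℂ) w) =
      if 0 < w.re then ((2 * w.arg : ℝ) : ℂ) * I
        else ((2 * w.arg + -(2 * Real.pi) : ℝ) : ℂ) * I := by
  have hpi := Real.pi_pos
  have hw : w ≠ 0 := by rintro rfl; simp at h
  have hI : exp ((Real.pi / 2 : ℂ) * I) = I := exp_pi_div_two_mul_I
  have ha := arg_mem_Ioo h
  have hIm : (log w).im = w.arg := log_im w
  have harg : w.arg ≠ Real.pi := ha.2.ne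
  have key : log w - (starRingEnd ℂ) (log w) = ((2 * w.arg : ℝ) : ℂ) * I := by
    apply Complex.ext
    · simp
    · simp [log_im]
      ring
  have c2 : log (I * (starRingEnd ℂ) w) = (starRingEnd ℂ) (log w) + (Real.pi / 2 : ℂ) * I := by
    have h1 : I * (starRingEnd ℂ) w = exp ((starRingEnd ℂ) (log w) + (Real.pi / 2 : ℂ) * I) := by
      rw [exp_add, hI, exp_conj, exp_log hw, mul_comm]
    have h2 : ((starRingEnd ℂ) (log w) + (Real.pi / 2 : ℂ) * I).im = -w.arg + Real.pi / 2 := by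
      have : ((Real.pi / 2 : ℂ) * I).im = Real.pi / 2 := by
        have : (Real.pi / 2 : ℂ) = ((Real.pi / 2 : ℝ) : ℂ) := by push_cast; rfl
        rw [this, mul_I_im, ofReal_re]
      rw [add_im, conj_im, hIm, this]
    rw [h1, log_exp]
    · rw [h2]; linarith [ha.2]
    · rw [h2]; linarith [ha.1]
  by_cases hre : 0 < w.re
  · rw [if_pos hre]
    have ha2 : w.arg < Real.pi / 2 := by
      have := arg_lt_pi_div_two_iff.2 (Or.inl hre)
      exact this
    have c1 : log (I * w) = log w + (Real.pi / 2 : ℂ) * I := by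
      have h1 : I * w = exp (log w + (Real.pi / 2 : ℂ) * I) := by
        rw [exp_add, hI, exp_log hw, mul_comm]
      have h2 : (log w + (Real.pi / 2 : ℂ) * I).im = w.arg + Real.pi / 2 := by
        have : ((Real.pi / 2 : ℂ) * I).im = Real.pi / 2 := by
          have : (Real.pi / 2 : ℂ) = ((Real.pi / 2 : ℝ) : ℂ) := by push_cast; rfl
          rw [this, mul_I_im, ofReal_re]
        rw [add_im, hIm, this]
      rw [h1, log_exp]
      · rw [h2]; linarith [ha.1]
      · rw [h2]; linarith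
    rw [c1, c2, ← key]
    ring
  · rw [if_neg hre]
    have hre' : w.re < 0 := lt_of_le_of_ne (not_lt.1 hre) h0
    have ha2 : Real.pi / 2 < w.arg := by
      by_contra hcon
      have := (arg_le_pi_div_two_iff.1 (not_lt.1 hcon))
      rcases this with h3 | h3 <;> linarith
    have c1 : log (I * w) = log w + (Real.pi / 2 : ℂ) * I - 2 * Real.pi * I := by
      have h1 : I * w = exp (log w + (Real.pi / 2 : ℂ) * I - 2 * Real.pi * I) := by
        rw [exp_sub, exp_add, hI, exp_log hw, exp_two_pi_mul_I, div_one, mul_comm]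
      have h2 : (log w + (Real.pi / 2 : ℂ) * I - 2 * Real.pi * I).im =
          w.arg + Real.pi / 2 - 2 * Real.pi := by
        have h3 : ((Real.pi / 2 : ℂ) * I).im = Real.pi / 2 := by
          have : (Real.pi / 2 : ℂ) = ((Real.pi / 2 : ℝ) : ℂ) := by push_cast; rfl
          rw [this, mul_I_im, ofReal_re]
        have h4 : (2 * Real.pi * I : ℂ).im = 2 * Real.pi := by
          have : (2 * Real.pi : ℂ) = ((2 * Real.pi : ℝ) : ℂ) := by push_cast; rfl
          rw [this, mul_I_im, ofReal_re]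
        rw [sub_im, add_im, hIm, h3, h4]
      rw [h1, log_exp]
      · rw [h2]; linarith
      · rw [h2]; linarith [ha.2]
    rw [c1, c2]
    have : ((2 * w.arg + -(2 * Real.pi) : ℝ) : ℂ) * I =
        (log w - (starRingEnd ℂ) (log w)) - 2 * Real.pi * I := by
      rw [key]
      push_cast
      ring
    rw [this]
    ring

/-- criterion: no point of the curve below `q` -/
theorem Crv.crit {G : ℝ → ℂ} {ζ b : ℝ} (h : Crv G ζ b) {q : ℂ} (hq : 0 < q.im)
    (hre : q.re ≠ ζ) (hno : ∀ s ∈ Ioo (0 : ℝ) 1, (G s).re = q.re → q.im < (G s).im) :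
    (ζ < q.re → Lft G q (((2 * (q - (ζ : ℂ)).arg : ℝ) : ℂ) * I)) ∧
    (q.re < ζ → Lft G q (((2 * (q - (ζ : ℂ)).arg + -(2 * Real.pi) : ℝ) : ℂ) * I)) := by
  set q₁ := (starRingEnd ℂ) q with hq₁
  have s1 : ∀ s ∈ Ioo (0 : ℝ) 1, -I * (G s - q) ∈ slitPlane := by
    intro s hs
    rw [mem_slitPlane_iff]
    by_cases h1 : (G s).re = q.re
    · left
      have := hno s hs h1
      simp
      linarith
    · right
      simp
      intro h2
      exact h1 (by linarith)
  have s2 : ∀ s ∈ Ioo (0 : ℝ) 1, -I * (G s - q₁) ∈ slitPlane := by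
    intro s hs
    rw [mem_slitPlane_iff]
    left
    have := h.im_pos hs
    simp [hq₁]
    linarith
  have s3 : -I * ((ζ : ℂ) - q) ∈ slitPlane := by
    rw [mem_slitPlane_iff]
    right
    simp
    intro h2
    exact hre (by linarith)
  have s4 : -I * ((ζ : ℂ) - q₁) ∈ slitPlane := by
    rw [mem_slitPlane_iff]
    left
    simp [hq₁]
    linarith
  have hb0 : 0 < b := lt_of_lt_of_le one_pos h.one_le
  have sb : (b : ℂ) ∈ slitPlane := by
    rw [mem_slitPlane_iff]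
    left
    simpa using hb0
  -- behaviour near one
  have hinf : ∀ p : ℂ, Tendsto (fun s : ℝ => log (-I * (G s - p)) -
      ((Real.log (s / (1 - s)) : ℝ) : ℂ)) (𝓝[<] 1) (𝓝 (log b)) := by
    intro p
    have e1 : Tendsto (fun s : ℝ => ((s / (1 - s) : ℝ) : ℂ)⁻¹) (𝓝[<] 1) (𝓝 0) := by
      have h2 : Tendsto (fun s : ℝ => (s / (1 - s))⁻¹) (𝓝[<] 1) (𝓝 0) :=
        tendsto_inv_atTop_zero.comp tendsto_ratio
      have h3 := (continuous_ofReal.tendsto (0 : ℝ)).comp h2
      rw [ofReal_zero] at h3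
      refine h3.congr ?_
      intro s
      simp
    have e2 : Tendsto (fun s : ℝ => G s / (((s / (1 - s) : ℝ) : ℂ) * I) +
        I * p * ((s / (1 - s) : ℝ) : ℂ)⁻¹) (𝓝[<] 1) (𝓝 (b : ℂ)) := by
      have := h.one.add (e1.const_mul (I * p))
      simpa using this
    have e3 := e2.clog sb
    refine e3.congr' ?_
    filter_upwards [Ioo_mem_nhdsLT (zero_lt_one (α := ℝ)),
      h.norm_tendsto.eventually_gt_atTop ‖p‖] with s hs hsn
    have hy : 0 < s / (1 - s) := div_pos hs.1 (by linarith [hs.2])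
    have hyc : ((s / (1 - s) : ℝ) : ℂ) ≠ 0 := by exact_mod_cast hy.ne'
    have hGp : G s - p ≠ 0 := by
      intro h0
      rw [sub_eq_zero.1 h0] at hsn
      exact lt_irrefl _ hsn
    have h4 : -I * (G s - p) = ((s / (1 - s) : ℝ) : ℂ) *
        (G s / (((s / (1 - s) : ℝ) : ℂ) * I) + I * p * ((s / (1 - s) : ℝ) : ℂ)⁻¹) := by
      have hI2 : I ≠ 0 := I_ne_zero
      field_simp
      ring_nf
      rw [I_sq]
      ring
    have h5 : (G s / (((s / (1 - s) : ℝ) : ℂ) * I) + I * p * ((s / (1 - s) : ℝ) : ℂ)⁻¹) ≠ 0 := by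
      intro h0
      rw [h0, mul_zero] at h4
      exact (mul_ne_zero (neg_ne_zero.2 I_ne_zero) hGp) h4
    rw [h4, log_ofReal_mul hy h5]
    ring
  have hlft : Lft G q (log (-I * ((ζ : ℂ) - q)) - log (-I * ((ζ : ℂ) - q₁))) := by
    refine lft_of (fun s => log (-I * (G s - q)) - log (-I * (G s - q₁))) ?_ ?_ ?_ ?_
    · refine ContinuousOn.sub ?_ ?_
      · exact ContinuousOn.clog (continuousOn_const.mul (h.cont.sub continuousOn_const)) s1
      · exact ContinuousOn.clog (continuousOn_const.mul (h.cont.sub continuousOn_const)) s2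
    · refine Tendsto.sub ?_ ?_
      · exact Tendsto.clog (tendsto_const_nhds.mul (h.zero.sub tendsto_const_nhds)) s3
      · exact Tendsto.clog (tendsto_const_nhds.mul (h.zero.sub tendsto_const_nhds)) s4
    · have := (hinf q).sub (hinf q₁)
      rw [sub_self] at this
      refine this.congr ?_
      intro s
      ring
    · intro s hs
      have n1 := slitPlane_ne_zero (s1 s hs)
      have n2 := slitPlane_ne_zero (s2 s hs)
      rw [exp_sub, exp_log n1, exp_log n2, Mq, ← hq₁]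
      exact mul_div_mul_left _ _ (neg_ne_zero.2 I_ne_zero)
  have hval : log (-I * ((ζ : ℂ) - q)) - log (-I * ((ζ : ℂ) - q₁)) =
      log (I * (q - ζ)) - log (I * (starRingEnd ℂ) (q - ζ)) := by
    have h1 : -I * ((ζ : ℂ) - q) = I * (q - ζ) := by ring
    have h2 : -I * ((ζ : ℂ) - q₁) = I * (starRingEnd ℂ) (q - ζ) := by
      rw [map_sub, conj_ofReal, ← hq₁]
      ring
    rw [h1, h2]
  have him : 0 < (q - (ζ : ℂ)).im := by simpa using hq
  have hree : (q - (ζ : ℂ)).re ≠ 0 := by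
    simp
    intro h2
    exact hre (by linarith)
  rw [hval, log_I_mul him hree] at hlft
  constructor
  · intro hlt
    have : 0 < (q - (ζ : ℂ)).re := by simp; exact hlt
    rwa [if_pos this] at hlft
  · intro hlt
    have : ¬ 0 < (q - (ζ : ℂ)).re := by simp; exact hlt.le
    rwa [if_neg this] at hlft

/-- points near a real point different from `ζ` -/
theorem Crv.near {G : ℝ → ℂ} {ζ b : ℝ} (h : Crv G ζ b) {t : ℝ} (ht : t ≠ ζ) :
    ∃ d > 0, ∀ q : ℂ, 0 < q.im → ‖q - t‖ < d →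
      (ζ < t → Lft G q (((2 * (q - (ζ : ℂ)).arg : ℝ) : ℂ) * I)) ∧
      (t < ζ → Lft G q (((2 * (q - (ζ : ℂ)).arg + -(2 * Real.pi) : ℝ) : ℂ) * I)) := by
  obtain ⟨d, hd, hdG⟩ := h.dist_lb (p := (t : ℂ)) (by exact_mod_cast ht) (by
    intro s hs h0
    have := h.im_pos hs
    rw [h0] at this
    simp at this)
  refine ⟨min d |t - ζ|, lt_min hd (abs_pos.2 (sub_ne_zero.2 ht)), ?_⟩
  intro q hq hqt
  have h1 : ‖q - t‖ < d := lt_of_lt_of_le hqt (min_le_left _ _)
  have h2 : ‖q - t‖ < |t - ζ| := lt_of_lt_of_le hqt (min_le_right _ _)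
  have h3 : |q.re - t| ≤ ‖q - t‖ := by
    have := abs_re_le_norm (q - t)
    simpa using this
  have h4 : |q.re - t| < |t - ζ| := lt_of_le_of_lt h3 h2
  have hre : q.re ≠ ζ := by
    intro h0
    rw [h0, abs_sub_comm] at h4
    exact lt_irrefl _ h4
  have hno : ∀ s ∈ Ioo (0 : ℝ) 1, (G s).re = q.re → q.im < (G s).im := by
    intro s hs hsr
    by_contra hcon
    have h5 := not_lt.1 hcon
    have h6 := hdG s hs
    have h7 : ‖G s - t‖ ≤ ‖q - t‖ := by
      rw [Complex.norm_def, Complex.norm_def]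
      refine Real.sqrt_le_sqrt ?_
      rw [normSq_apply, normSq_apply]
      simp only [sub_re, sub_im, ofReal_re, ofReal_im, sub_zero, hsr]
      have h8 := h.im_pos hs
      nlinarith
    linarith
  have hc := h.crit hq hre hno
  constructor
  · intro hlt
    refine hc.1 ?_
    rw [abs_of_pos (sub_pos.2 hlt)] at h4
    have := (abs_lt.1 h4).1
    linarith
  · intro hlt
    refine hc.2 ?_
    rw [abs_of_neg (sub_neg.2 hlt)] at h4
    have := (abs_lt.1 h4).2
    linarith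

/-- large points -/
theorem Crv.large {G : ℝ → ℂ} {ζ b : ℝ} (h : Crv G ζ b) {ε : ℝ} (hε : 0 < ε) :
    ∃ R : ℝ, ∀ q : ℂ, 0 < q.im → R ≤ ‖q‖ →
      (ε * ‖q‖ ≤ q.re → Lft G q (((2 * (q - (ζ : ℂ)).arg : ℝ) : ℂ) * I)) ∧
      (q.re ≤ -(ε * ‖q‖) →
        Lft G q (((2 * (q - (ζ : ℂ)).arg + -(2 * Real.pi) : ℝ) : ℂ) * I)) := by
  have e1 : ∀ᶠ s in 𝓝[<] (1 : ℝ), |(G s).re| ≤ ε / 2 * (s / (1 - s)) := by
    have h1 : Tendsto (fun s : ℝ => (G s / (((s / (1 - s) : ℝ) : ℂ) * I)).im) (𝓝[<] 1) (𝓝 0) := by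
      have := (continuous_im.tendsto (b : ℂ)).comp h.one
      rw [ofReal_im] at this
      exact this
    rw [Metric.tendsto_nhds] at h1
    filter_upwards [h1 (ε / 2) (by positivity), Ioo_mem_nhdsLT (zero_lt_one (α := ℝ))] with s hs hsI
    have hy : 0 < s / (1 - s) := div_pos hsI.1 (by linarith [hsI.2])
    rw [dist_zero_right, Real.norm_eq_abs] at hs
    have h2 : (G s / (((s / (1 - s) : ℝ) : ℂ) * I)).im = -(G s).re / (s / (1 - s)) := by
      have h3 : G s / (((s / (1 - s) : ℝ) : ℂ) * I) =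
          (((s / (1 - s))⁻¹ : ℝ) : ℂ) * (G s * (-I)) := by
        have hyc : ((s / (1 - s) : ℝ) : ℂ) ≠ 0 := by exact_mod_cast hy.ne'
        rw [div_eq_mul_inv, mul_inv, inv_I, ofReal_inv]
        ring
      rw [h3, im_ofReal_mul]
      have h4 : (G s * (-I)).im = -(G s).re := by simp
      rw [h4]
      ring
    rw [h2, abs_div, abs_neg, abs_of_pos hy, div_lt_iff₀ hy] at hs
    exact hs.le
  obtain ⟨η, hη, hη'⟩ := (mem_nhdsLT_iff_exists_Ioo_subset).1 e1
  have hη1 : η < 1 := hη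
  obtain ⟨R₀, hR₀⟩ := h.bdd (s₁ := (1 + η) / 2) (by linarith)
  refine ⟨max (max 1 ((R₀ + 1) / ε)) ((|ζ| + 1) / ε), ?_⟩
  intro q hq hR
  have hR1 : 1 ≤ ‖q‖ := (le_max_left _ _).trans ((le_max_left _ _).trans hR)
  have hR2 : R₀ + 1 ≤ ε * ‖q‖ := by
    have := (le_max_right _ _).trans ((le_max_left _ _).trans hR)
    rw [div_le_iff₀ hε] at this
    linarith
  have hR3 : |ζ| + 1 ≤ ε * ‖q‖ := by
    have := (le_max_right _ _).trans hR
    rw [div_le_iff₀ hε] at this
    linarith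
  have main : ε * ‖q‖ ≤ |q.re| → ∀ s ∈ Ioo (0 : ℝ) 1, (G s).re = q.re → q.im < (G s).im := by
    intro hqr s hs hsr
    by_cases hsη : s ≤ (1 + η) / 2
    · exfalso
      have h1 := hR₀ s hs hsη
      have h2 := abs_re_le_norm (G s)
      rw [hsr] at h2
      linarith
    · have h1 : |(G s).re| ≤ ε / 2 * (s / (1 - s)) := hη' (show s ∈ Ioo η 1 from
        ⟨by linarith [not_le.1 hsη], hs.2⟩)
      rw [hsr] at h1
      have h2 : ε * ‖q‖ ≤ ε * ((s / (1 - s)) / 2) := by linarith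
      have h3 : ‖q‖ ≤ (s / (1 - s)) / 2 := le_of_mul_le_mul_left h2 hε
      have h4 := h.im_ge s hs
      have h5 := im_le_norm q
      linarith
  constructor
  · intro hqr
    have h1 : ζ < q.re := by
      have := le_abs_self ζ
      linarith
    exact (h.crit hq h1.ne' (main (hqr.trans (le_abs_self _)))).1 h1
  · intro hqr
    have h1 : q.re < ζ := by
      have := neg_abs_le ζ
      linarith
    have h2 : ε * ‖q‖ ≤ |q.re| := by
      have := neg_le_abs q.re
      linarith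
    exact (h.crit hq h1.ne (main h2)).2 h1

/-- the vertical ray tends non-tangentially to infinity -/
theorem ray_tendsto (x : ℝ) : Tendsto (fun s : ℝ => ray x s) (𝓝[<] 1) (NTI 2) := by
  refine tendsto_inf.2 ⟨?_, ?_⟩
  · rw [tendsto_comap_iff]
    refine tendsto_atTop_mono' _ ?_ tendsto_ratio
    filter_upwards with s
    have := im_le_norm (ray x s)
    rw [ray_im] at this
    exact this
  · rw [tendsto_principal]
    filter_upwards [tendsto_ratio.eventually_ge_atTop (|x| + 1)] with s hs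
    have h1 : (ray x s).im = s / (1 - s) := ray_im x s
    have h2 : 0 < s / (1 - s) := by
      have := abs_nonneg x
      linarith
    refine ⟨by rw [h1]; exact h2, ?_⟩
    rw [h1]
    have h3 : ‖ray x s‖ ≤ |x| + s / (1 - s) := by
      rw [ray]
      refine (norm_add_le _ _).trans ?_
      rw [norm_mul, norm_I, mul_one, norm_real, norm_real, Real.norm_eq_abs, Real.norm_eq_abs,
        abs_of_pos h2]
    linarith

theorem ray_mem_Hp (x : ℝ) {s : ℝ} (hs : s ∈ Ioo (0 : ℝ) 1) : ray x s ∈ Hp := by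
  have : (ray x s).im = s / (1 - s) := ray_im x s
  show 0 < (ray x s).im
  rw [this]
  exact div_pos hs.1 (by linarith [hs.2])

theorem ray_cont (x : ℝ) : ContinuousOn (ray x) (Ioo 0 1) := by
  have h1 : ContinuousOn (fun s : ℝ => s / (1 - s)) (Ioo 0 1) := by
    refine continuousOn_id.div (continuousOn_const.sub continuousOn_id) ?_
    intro s hs h0
    have h1 : 1 - s = 0 := h0
    have := hs.2
    linarith
  exact continuousOn_const.add ((continuous_ofReal.comp_continuousOn h1).mul continuousOn_const)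

/-- the image of a vertical ray is a curve in the abstract sense -/
theorem crv_of_adm (hJ : S_JWC) (hB : S_JBD) {g : ℂ → ℂ} {x ζ : ℝ} (h : Adm g x ζ) :
    ∃ b : ℝ, Crv (fun s => g (ray x s)) ζ b := by
  obtain ⟨⟨hd, hm, hi⟩, him, A, hA⟩ := h
  obtain ⟨c, hc, hc1, hc2⟩ := hJ g hd (fun z hz => (hm hz).le)
  obtain ⟨-, -, hA3⟩ := hB g x ζ A hm hA
  have hone : Tendsto (fun s : ℝ => g (ray x s) / (((s / (1 - s) : ℝ) : ℂ) * I)) (𝓝[<] 1)
      (𝓝 (c : ℂ)) := by
    have h1 := (hc2 2).comp (ray_tendsto x)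
    have h2 : Tendsto (fun s : ℝ => ray x s / (((s / (1 - s) : ℝ) : ℂ) * I)) (𝓝[<] 1) (𝓝 1) := by
      have e1 : Tendsto (fun s : ℝ => ((s / (1 - s) : ℝ) : ℂ)⁻¹) (𝓝[<] 1) (𝓝 0) := by
        have h2 : Tendsto (fun s : ℝ => (s / (1 - s))⁻¹) (𝓝[<] 1) (𝓝 0) :=
          tendsto_inv_atTop_zero.comp tendsto_ratio
        have h3 := (continuous_ofReal.tendsto (0 : ℝ)).comp h2
        rw [ofReal_zero] at h3
        refine h3.congr ?_
        intro s
        simp
      have e2 : Tendsto (fun s : ℝ => 1 + (x * (-I)) * ((s / (1 - s) : ℝ) : ℂ)⁻¹) (𝓝[<] 1)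
          (𝓝 1) := by
        have := (e1.const_mul ((x : ℂ) * (-I))).const_add 1
        simpa using this
      refine e2.congr' ?_
      filter_upwards [Ioo_mem_nhdsLT (zero_lt_one (α := ℝ))] with s hs
      have hy : 0 < s / (1 - s) := div_pos hs.1 (by linarith [hs.2])
      have hyc : ((s / (1 - s) : ℝ) : ℂ) ≠ 0 := by exact_mod_cast hy.ne'
      rw [ray, add_div, div_self (mul_ne_zero hyc I_ne_zero), div_eq_mul_inv (x : ℂ), mul_inv,
        inv_I]
      ring
    have h3 := h1.mul h2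
    rw [mul_one] at h3
    refine h3.congr' ?_
    filter_upwards [Ioo_mem_nhdsLT (zero_lt_one (α := ℝ))] with s hs
    have hne : ray x s ≠ 0 := by
      intro h0
      have := ray_mem_Hp x hs
      rw [h0] at this
      simp [Hp] at this
    simp only [Function.comp]
    rw [div_mul_div_cancel₀ hne]
  refine ⟨c, ?_, ?_, hone, ?_, ?_⟩
  · exact hd.continuousOn.comp (ray_cont x) (fun s hs => ray_mem_Hp x hs)
  · have h1 : Tendsto (fun s : ℝ => s / (1 - s)) (𝓝[>] 0) (𝓝[>] 0) := by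
      refine tendsto_nhdsWithin_iff.2 ⟨?_, ?_⟩
      · have : Tendsto (fun s : ℝ => s / (1 - s)) (𝓝 0) (𝓝 (0 / (1 - 0))) := by
          refine (continuousAt_id.div (continuousAt_const.sub continuousAt_id) ?_).tendsto
          simp
        rw [zero_div] at this
        exact this.mono_left nhdsWithin_le_nhds
      · filter_upwards [Ioo_mem_nhdsGT (zero_lt_one (α := ℝ))] with s hs
        exact div_pos hs.1 (by linarith [hs.2])
    exact hA3.comp h1
  · -- `1 ≤ c`
    have h1 : Tendsto (fun s : ℝ => (g (ray x s) / (((s / (1 - s) : ℝ) : ℂ) * I)).re) (𝓝[<] 1)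
        (𝓝 c) := by
      have := (continuous_re.tendsto (c : ℂ)).comp hone
      rw [ofReal_re] at this
      exact this
    refine ge_of_tendsto h1 ?_
    filter_upwards [Ioo_mem_nhdsLT (zero_lt_one (α := ℝ))] with s hs
    have hy : 0 < s / (1 - s) := div_pos hs.1 (by linarith [hs.2])
    have h3 : g (ray x s) / (((s / (1 - s) : ℝ) : ℂ) * I) =
        (((s / (1 - s))⁻¹ : ℝ) : ℂ) * (g (ray x s) * (-I)) := by
      rw [div_eq_mul_inv, mul_inv, inv_I, ofReal_inv]
      ring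
    have h4 := him _ (ray_mem_Hp x hs)
    have h5 : (ray x s).im = s / (1 - s) := ray_im x s
    rw [h5] at h4
    rw [h3, re_ofReal_mul]
    have h6 : (g (ray x s) * (-I)).re = (g (ray x s)).im := by simp
    rw [h6, inv_mul_eq_div, le_div_iff₀ hy, one_mul]
    exact h4
  · intro s hs
    have h4 := him _ (ray_mem_Hp x hs)
    have h5 : (ray x s).im = s / (1 - s) := ray_im x s
    rw [h5] at h4
    exact h4

theorem rtI_iff {g : ℂ → ℂ} {x ζ : ℝ} {q : ℂ} : RtI g x ζ q ↔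
    0 < q.im ∧ Lft (fun s => g (ray x s)) q (((2 * (q - (ζ : ℂ)).arg : ℝ) : ℂ) * I) := Iff.rfl

theorem ltI_iff {g : ℂ → ℂ} {x ζ : ℝ} {q : ℂ} : LtI g x ζ q ↔
    0 < q.im ∧ Lft (fun s => g (ray x s)) q
      (((2 * (q - (ζ : ℂ)).arg - 2 * Real.pi : ℝ) : ℂ) * I) := Iff.rfl

theorem not_mem_curve {g : ℂ → ℂ} {x : ℝ} {q : ℂ} :
    q ∉ curve g x ↔ ∀ s ∈ Ioo (0 : ℝ) 1, g (ray x s) ≠ q := by
  constructor
  · intro h s hs h0
    refine h ⟨ray x s, ⟨ray_re x s, ray_mem_Hp x hs⟩, h0⟩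
  · rintro h ⟨z, ⟨hz, hz'⟩, hzq⟩
    have h1 : 0 < 1 + z.im := by linarith
    have hs : z.im / (1 + z.im) ∈ Ioo (0 : ℝ) 1 :=
      ⟨div_pos hz' h1, by rw [div_lt_one h1]; linarith⟩
    refine h _ hs ?_
    have h2 : z.im / (1 + z.im) / (1 - z.im / (1 + z.im)) = z.im := by
      have h3 : 1 - z.im / (1 + z.im) = 1 / (1 + z.im) := by
        field_simp
        ring
      rw [h3]
      field_simp
    have h4 : ray x (z.im / (1 + z.im)) = z := by
      rw [ray, h2, ← hz]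
      exact re_add_im z
    rw [h4, hzq]

/-- Job IDXa -/
theorem t (_hSP : S_SP) (hJ : S_JWC) (hB : S_JBD) : S_IDXa := by
  intro g x ζ hg
  obtain ⟨b, hC⟩ := crv_of_adm hJ hB hg
  have eqL : ∀ q : ℂ, (((2 * (q - (ζ : ℂ)).arg - 2 * Real.pi : ℝ) : ℂ) * I) =
      (((2 * (q - (ζ : ℂ)).arg + -(2 * Real.pi) : ℝ) : ℂ) * I) := by
    intro q
    rw [sub_eq_add_neg]
  have eqR : ∀ q : ℂ, (((2 * (q - (ζ : ℂ)).arg : ℝ) : ℂ) * I) =
      (((2 * (q - (ζ : ℂ)).arg + 0 : ℝ) : ℂ) * I) := by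
    intro q
    rw [add_zero]
  refine ⟨?_, ?_, ?_, ?_, ?_, ?_, ?_⟩
  · intro q hq
    rw [not_mem_curve]
    intro s hs
    exact lft_off hq.2 hs
  · intro q hq
    rw [not_mem_curve]
    intro s hs
    exact lft_off hq.2 hs
  · intro q hq hq'
    exact lft_excl hq.2 hq'.2
  · intro q hq hqc
    have hqI : 0 < q.im := hq
    rw [not_mem_curve] at hqc
    obtain ⟨d, hd, hdG⟩ := hC.dist_lb (p := q) (by
      intro h0
      rw [h0] at hqI
      simp at hqI) hqc
    have hopen : ∀ᶠ q' in 𝓝 q, ‖q' - q‖ < min (d / 2) (q.im / 4) := by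
      have : 0 < min (d / 2) (q.im / 4) := lt_min (by linarith) (by linarith)
      filter_upwards [Metric.ball_mem_nhds q this] with q' hq'
      rwa [mem_ball, dist_eq_norm] at hq'
    filter_upwards [hopen] with q' hq'
    have h1 : ‖q' - q‖ < d / 2 := lt_of_lt_of_le hq' (min_le_left _ _)
    have h2 : ‖q' - q‖ < q.im / 4 := lt_of_lt_of_le hq' (min_le_right _ _)
    have h3 : |q'.im - q.im| ≤ ‖q' - q‖ := by
      have := abs_im_le_norm (q' - q)
      simpa using this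
    have h4 := (abs_le.1 h3).1
    have hq'I : 0 < q'.im := by linarith
    have hrev : ‖q - q'‖ = ‖q' - q‖ := norm_sub_rev _ _
    have a1 : ∀ s ∈ Ioo (0 : ℝ) 1, ‖q' - q‖ < ‖g (ray x s) - q‖ := fun s hs => by
      have := hdG s hs
      linarith
    have a2 : ∀ s ∈ Ioo (0 : ℝ) 1, ‖q - q'‖ < ‖g (ray x s) - q'‖ := fun s hs => by
      have h5 := hdG s hs
      have h6 : ‖g (ray x s) - q‖ ≤ ‖g (ray x s) - q'‖ + ‖q' - q‖ := by
        have : g (ray x s) - q = (g (ray x s) - q') + (q' - q) := by ring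
        rw [this]
        exact norm_add_le _ _
      rw [hrev]
      linarith
    have b1 : ‖q' - q‖ < q.im := by linarith
    have b2 : ‖q - q'‖ < q'.im := by rw [hrev]; linarith
    refine ⟨⟨fun h => ?_, fun h => ?_⟩, ⟨fun h => ?_, fun h => ?_⟩⟩
    · refine ⟨hqI, ?_⟩
      have := h.2
      change Lft (fun s => g (ray x s)) q' _ at this
      rw [eqR] at this
      have := hC.shift hq'I hqI a2 b2 this
      rw [← eqR] at this
      exact this
    · refine ⟨hq'I, ?_⟩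
      have := h.2
      change Lft (fun s => g (ray x s)) q _ at this
      rw [eqR] at this
      have := hC.shift hqI hq'I a1 b1 this
      rw [← eqR] at this
      exact this
    · refine ⟨hqI, ?_⟩
      have := h.2
      change Lft (fun s => g (ray x s)) q' _ at this
      rw [eqL] at this
      have := hC.shift hq'I hqI a2 b2 this
      rw [← eqL] at this
      exact this
    · refine ⟨hq'I, ?_⟩
      have := h.2
      change Lft (fun s => g (ray x s)) q _ at this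
      rw [eqL] at this
      have := hC.shift hqI hq'I a1 b1 this
      rw [← eqL] at this
      exact this
  · intro t ht
    obtain ⟨d, hd, hdd⟩ := hC.near ht.ne'
    filter_upwards [self_mem_nhdsWithin, mem_nhdsWithin_of_mem_nhds (Metric.ball_mem_nhds (t : ℂ) hd)]
      with q hq hqd
    rw [mem_ball, dist_eq_norm] at hqd
    exact ⟨hq, (hdd q hq hqd).1 ht⟩
  · intro t ht
    obtain ⟨d, hd, hdd⟩ := hC.near ht.ne
    filter_upwards [self_mem_nhdsWithin, mem_nhdsWithin_of_mem_nhds (Metric.ball_mem_nhds (t : ℂ) hd)]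
      with q hq hqd
    rw [mem_ball, dist_eq_norm] at hqd
    refine ⟨hq, ?_⟩
    have := (hdd q hq hqd).2 ht
    rw [← eqL] at this
    exact this
  · intro ε hε
    obtain ⟨R, hR⟩ := hC.large hε
    refine ⟨R, fun q hq hqR => ⟨fun h => ⟨hq, (hR q hq hqR).1 h⟩, fun h => ⟨hq, ?_⟩⟩⟩
    have := (hR q hq hqR).2 h
    rw [← eqL] at this
    exact this

end Pool.Agent.Y891.LW
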